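import Mathlib

/-!
# RV, block AUT, first part: monomial ideals in a permutable regular sequence

If every member of a finite family is a nonzerodivisor modulo any set of other members, then the intersection of two
monomial ideals is the monomial ideal of the intersection of the sets of exponents.
-/

set_option autoImplicit false

namespace Pool.Agent.Helper21.RV

universe u

variable {ι : Type*}

/-- each `f i`, `i ∈ I`, is a nonzerodivisor modulo `(f j, j ∈ J)`, `J ⊆ I` without `i` -/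
def Reg {A : Type*} [CommRing A] (f : ι → A) (I : Finset ι) : Prop :=
  ∀ J ⊆ I, ∀ i ∈ I, i ∉ J → ∀ z, f i * z ∈ Ideal.span (f '' (J : Set ι)) → z ∈ Ideal.span (f '' (J : Set ι))

/-- the ideal generated by the monomials with exponent in `𝒜` -/
def MI {A : Type*} [CommRing A] (f : ι → A) (I : Finset ι) (𝒜 : Set (ι → ℕ)) : Ideal A :=
  Ideal.span ((fun α : ι → ℕ => ∏ i ∈ I, f i ^ α i) '' 𝒜)

theorem mon_mem {A : Type*} [CommRing A] (f : ι → A) (I : Finset ι) {𝒜 : Set (ι → ℕ)} {α : ι → ℕ} (h : α ∈ 𝒜) :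
    ∏ i ∈ I, f i ^ α i ∈ MI f I 𝒜 :=
  Ideal.subset_span ⟨α, h, rfl⟩

theorem MI_mono {A : Type*} [CommRing A] (f : ι → A) (I : Finset ι) {𝒜 ℬ : Set (ι → ℕ)} (h : 𝒜 ⊆ ℬ) :
    MI f I 𝒜 ≤ MI f I ℬ :=
  Ideal.span_mono (Set.image_mono h)

theorem Reg.mono {A : Type*} [CommRing A] {f : ι → A} {I I' : Finset ι} (h : Reg f I) (hI : I' ⊆ I) : Reg f I' :=
  fun J hJ i hi hiJ z hz => h J (hJ.trans hI) i (hI hi) hiJ z hz

/-- the members of a regular family without `s` are regular modulo `f s` -/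
theorem Reg.quot [DecidableEq ι] {A : Type*} [CommRing A] {f : ι → A} {I : Finset ι} {s : ι} (hs : s ∉ I)
    (h : Reg f (insert s I)) : Reg (fun i => Ideal.Quotient.mk (Ideal.span {f s}) (f i)) I := by
  intro J hJ i hi hiJ z hz
  obtain ⟨z, rfl⟩ := Ideal.Quotient.mk_surjective z
  have hmap : Ideal.span ((fun i => Ideal.Quotient.mk (Ideal.span {f s}) (f i)) '' (J : Set ι)) =
      Ideal.map (Ideal.Quotient.mk (Ideal.span {f s})) (Ideal.span (f '' (J : Set ι))) := by
    rw [Ideal.map_span, Set.image_image]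
  have hcom : ∀ y : A, Ideal.Quotient.mk (Ideal.span {f s}) y ∈
      Ideal.map (Ideal.Quotient.mk (Ideal.span {f s})) (Ideal.span (f '' (J : Set ι))) ↔
      y ∈ Ideal.span (f '' ((insert s J : Finset ι) : Set ι)) := by
    intro y
    rw [← Ideal.mem_comap, Ideal.comap_map_of_surjective _ Ideal.Quotient.mk_surjective, ← RingHom.ker_eq_comap_bot,
      Ideal.mk_ker, sup_comm, Finset.coe_insert, Set.image_insert_eq, Set.insert_eq, Ideal.span_union]
  rw [hmap] at hz ⊢
  rw [← map_mul, hcom] at hz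
  rw [hcom]
  have hsJ : i ∉ insert s J := by
    rw [Finset.mem_insert]
    rintro (h1 | h1)
    · exact hs (h1 ▸ hi)
    · exact hiJ h1
  exact h (insert s J) (Finset.insert_subset_insert s hJ) i (Finset.mem_insert_of_mem hi) hsJ z hz

section

variable [DecidableEq ι]

/-- the exponents `α` with `α + e_s ∈ 𝒜` -/
def up (s : ι) (𝒜 : Set (ι → ℕ)) : Set (ι → ℕ) := {α | Function.update α s (α s + 1) ∈ 𝒜}

/-- the exponents whose coordinate `s` can be replaced by zero -/
def sl (s : ι) (𝒜 : Set (ι → ℕ)) : Set (ι → ℕ) := {α | Function.update α s 0 ∈ 𝒜}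

/-- `𝒜` does not depend on the coordinate `s` from `N` on -/
def Sta (s : ι) (N : ℕ) (𝒜 : Set (ι → ℕ)) : Prop := ∀ α, N ≤ α s → (α ∈ 𝒜 ↔ Function.update α s N ∈ 𝒜)

theorem up_upper {s : ι} {𝒜 : Set (ι → ℕ)} (h : IsUpperSet 𝒜) : IsUpperSet (up s 𝒜) := by
  intro α β hab ha
  refine h ?_ ha
  intro i
  by_cases hi : i = s
  · subst hi
    simpa using hab i
  · simpa [Function.update_of_ne hi] using hab i

theorem sl_upper {s : ι} {𝒜 : Set (ι → ℕ)} (h : IsUpperSet 𝒜) : IsUpperSet (sl s 𝒜) := by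
  intro α β hab ha
  refine h ?_ ha
  intro i
  by_cases hi : i = s
  · subst hi
    simp
  · simpa [Function.update_of_ne hi] using hab i

theorem le_up {s : ι} {𝒜 : Set (ι → ℕ)} (h : IsUpperSet 𝒜) : 𝒜 ⊆ up s 𝒜 := by
  intro α ha
  refine h ?_ ha
  intro i
  by_cases hi : i = s
  · subst hi
    simp
  · simp [Function.update_of_ne hi]

theorem sl_le {s : ι} {𝒜 : Set (ι → ℕ)} (h : IsUpperSet 𝒜) : sl s 𝒜 ⊆ 𝒜 := by
  intro α ha
  refine h ?_ ha
  intro i
  by_cases hi : i = s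
  · subst hi
    simp
  · simp [Function.update_of_ne hi]

theorem sta_up {s : ι} {N : ℕ} {𝒜 : Set (ι → ℕ)} (h : Sta s (N + 1) 𝒜) : Sta s N (up s 𝒜) := by
  intro α ha
  have h1 := h (Function.update α s (α s + 1)) (by simpa using ha)
  simp only [Function.update_idem] at h1
  show Function.update α s (α s + 1) ∈ 𝒜 ↔ Function.update (Function.update α s N) s (Function.update α s N s + 1) ∈ 𝒜
  rw [Function.update_idem, Function.update_self]
  exact h1

theorem sta_ne {s t : ι} (hst : t ≠ s) {N : ℕ} {𝒜 : Set (ι → ℕ)} (h : Sta t N 𝒜) : Sta t N (sl s 𝒜) ∧ Sta t N (up s 𝒜) := by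
  refine ⟨fun α ha => ?_, fun α ha => ?_⟩
  · have h1 := h (Function.update α s 0) (by rwa [Function.update_of_ne hst])
    rw [Function.update_comm hst.symm] at h1
    exact h1
  · have h1 := h (Function.update α s (α s + 1)) (by rwa [Function.update_of_ne hst])
    rw [Function.update_comm hst.symm] at h1
    show Function.update α s (α s + 1) ∈ 𝒜 ↔
      Function.update (Function.update α t N) s (Function.update α t N s + 1) ∈ 𝒜
    rw [Function.update_of_ne hst.symm]
    exact h1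

theorem sta_mono {s : ι} {N M : ℕ} (hNM : N ≤ M) {𝒜 : Set (ι → ℕ)} (h : Sta s N 𝒜) : Sta s M 𝒜 := by
  intro α ha
  rw [h α (hNM.trans ha), h (Function.update α s M) (by simpa using hNM), Function.update_idem]

variable {A : Type u} [CommRing A] (f : ι → A) {I : Finset ι} {s : ι} (hs : s ∉ I)

include hs

theorem prod_upd (α : ι → ℕ) (a : ℕ) : ∏ i ∈ I, f i ^ Function.update α s a i = ∏ i ∈ I, f i ^ α i := by
  refine Finset.prod_congr rfl fun i hi => ?_
  have : i ≠ s := fun h => hs (h ▸ hi)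
  rw [Function.update_of_ne this]

theorem MI_sl_le (𝒜 : Set (ι → ℕ)) : MI f I (sl s 𝒜) ≤ MI f (insert s I) 𝒜 := by
  rw [MI, Ideal.span_le]
  rintro _ ⟨α, ha, rfl⟩
  have h1 := mon_mem f (insert s I) (show Function.update α s 0 ∈ 𝒜 from ha)
  rw [Finset.prod_insert hs, Function.update_self, pow_zero, one_mul, prod_upd f hs] at h1
  exact h1

theorem mul_up_mem {𝒜 : Set (ι → ℕ)} {z : A} (h : z ∈ MI f (insert s I) (up s 𝒜)) : f s * z ∈ MI f (insert s I) 𝒜 := by
  rw [MI] at h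
  induction h using Submodule.span_induction with
  | mem x hx =>
    obtain ⟨α, ha, rfl⟩ := hx
    have h1 := mon_mem f (insert s I) (show Function.update α s (α s + 1) ∈ 𝒜 from ha)
    rw [Finset.prod_insert hs, Function.update_self, prod_upd f hs, pow_succ'] at h1
    simp only
    rw [Finset.prod_insert hs, ← mul_assoc]
    exact h1
  | zero => rw [mul_zero]; exact zero_mem _
  | add x y _ _ hx hy => rw [mul_add]; exact add_mem hx hy
  | smul a x _ hx => rw [smul_eq_mul, mul_left_comm]; exact Ideal.mul_mem_left _ _ hx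

theorem MI_dec {𝒜 : Set (ι → ℕ)} {z : A} (h : z ∈ MI f (insert s I) 𝒜) :
    ∃ a ∈ MI f I (sl s 𝒜), ∃ b ∈ MI f (insert s I) (up s 𝒜), z = a + f s * b := by
  rw [MI] at h
  induction h using Submodule.span_induction with
  | mem x hx =>
    obtain ⟨α, ha, rfl⟩ := hx
    simp only
    rcases Nat.eq_zero_or_pos (α s) with h0 | h0
    · refine ⟨∏ i ∈ I, f i ^ α i, mon_mem f I ?_, 0, zero_mem _, ?_⟩
      · show Function.update α s 0 ∈ 𝒜
        rw [← h0, Function.update_eq_self]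
        exact ha
      · rw [Finset.prod_insert hs, h0, pow_zero, one_mul, mul_zero, add_zero]
    · refine ⟨0, zero_mem _, ∏ i ∈ insert s I, f i ^ Function.update α s (α s - 1) i, mon_mem f _ ?_, ?_⟩
      · show Function.update (Function.update α s (α s - 1)) s (Function.update α s (α s - 1) s + 1) ∈ 𝒜
        rw [Function.update_idem, Function.update_self, Nat.sub_add_cancel h0, Function.update_eq_self]
        exact ha
      · rw [zero_add, Finset.prod_insert hs, Finset.prod_insert hs, Function.update_self, prod_upd f hs, ← mul_assoc,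
          ← pow_succ', Nat.sub_add_cancel h0]
  | zero => exact ⟨0, zero_mem _, 0, zero_mem _, by simp⟩
  | add x y _ _ hx hy =>
    obtain ⟨a, ha, b, hb, h1⟩ := hx
    obtain ⟨a', ha', b', hb', h2⟩ := hy
    exact ⟨a + a', add_mem ha ha', b + b', add_mem hb hb', by rw [h1, h2]; ring⟩
  | smul c x _ hx =>
    obtain ⟨a, ha, b, hb, h1⟩ := hx
    exact ⟨c * a, Ideal.mul_mem_left _ _ ha, c * b, Ideal.mul_mem_left _ _ hb, by rw [h1, smul_eq_mul]; ring⟩

theorem MI_sta {𝒜 : Set (ι → ℕ)} (h : Sta s 0 𝒜) : MI f (insert s I) 𝒜 = MI f I 𝒜 := by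
  refine le_antisymm ?_ ?_
  · rw [MI, Ideal.span_le]
    rintro _ ⟨α, ha, rfl⟩
    simp only [SetLike.mem_coe]
    rw [Finset.prod_insert hs]
    exact Ideal.mul_mem_left _ _ (mon_mem f I ha)
  · rw [MI, Ideal.span_le]
    rintro _ ⟨α, ha, rfl⟩
    have h1 := mon_mem f (insert s I) ((h α (Nat.zero_le _)).1 ha)
    rw [Finset.prod_insert hs, Function.update_self, pow_zero, one_mul, prod_upd f hs] at h1
    exact h1

omit hs [DecidableEq ι] in
theorem map_MI (J : Ideal A) (𝒜 : Set (ι → ℕ)) :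
    Ideal.map (Ideal.Quotient.mk J) (MI f I 𝒜) = MI (fun i => Ideal.Quotient.mk J (f i)) I 𝒜 := by
  rw [MI, MI, Ideal.map_span, Set.image_image]
  simp only [map_prod, map_pow]

omit hs [DecidableEq ι] in
/-- lifting from the quotient by `f s` -/
theorem lift_MI (s : ι) {𝒜 : Set (ι → ℕ)} {z : A}
    (h : Ideal.Quotient.mk (Ideal.span {f s}) z ∈ MI (fun i => Ideal.Quotient.mk (Ideal.span {f s}) (f i)) I 𝒜) :
    ∃ c ∈ MI f I 𝒜, ∃ z', z = c + f s * z' := by
  rw [← map_MI, Ideal.mem_map_iff_of_surjective _ Ideal.Quotient.mk_surjective] at h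
  obtain ⟨c, hc, h1⟩ := h
  rw [Ideal.Quotient.eq, Ideal.mem_span_singleton] at h1
  obtain ⟨y, hy⟩ := h1
  exact ⟨c, hc, -y, by rw [mul_neg, ← hy]; ring⟩

/-- the colon ideal, if `f s` is a nonzerodivisor modulo the monomial ideals in the other variables -/
theorem colon_MI {𝒜 : Set (ι → ℕ)} (hA : IsUpperSet 𝒜)
    (ha : ∀ z, f s * z ∈ MI f I (sl s 𝒜) → z ∈ MI f I (sl s 𝒜)) {z : A} (hz : f s * z ∈ MI f (insert s I) 𝒜) :
    z ∈ MI f (insert s I) (up s 𝒜) := by
  obtain ⟨a, h1, b, h2, h3⟩ := MI_dec f hs hz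
  have h4 : f s * (z - b) = a := by rw [mul_sub, h3]; ring
  have h5 : z - b ∈ MI f I (sl s 𝒜) := ha _ (by rw [h4]; exact h1)
  have h6 := MI_mono f _ (le_up (s := s) hA) (MI_sl_le f hs 𝒜 h5)
  have h7 := add_mem h6 h2
  rwa [sub_add_cancel] at h7

end

section

variable [DecidableEq ι]

/-- `f i` is a nonzerodivisor modulo every monomial ideal in the other members -/
theorem nzd_MI (I : Finset ι) : ∀ {A : Type u} [CommRing A] (f : ι → A) (i : ι), i ∉ I → Reg f (insert i I) →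
    ∀ 𝒜 : Set (ι → ℕ), IsUpperSet 𝒜 → (∀ s ∈ I, ∃ N, Sta s N 𝒜) → ∀ z, f i * z ∈ MI f I 𝒜 → z ∈ MI f I 𝒜 := by
  induction I using Finset.induction_on with
  | empty =>
    intro A _ f i _ hf 𝒜 hA _ z hz
    by_cases h : ∃ α, α ∈ 𝒜
    · obtain ⟨α, ha⟩ := h
      have h1 := mon_mem f ∅ ha
      rw [Finset.prod_empty] at h1
      rw [(Ideal.eq_top_iff_one _).2 h1]
      trivial
    · have h1 : 𝒜 = ∅ := Set.eq_empty_of_forall_notMem fun α ha => h ⟨α, ha⟩
      subst h1
      have h2 := hf ∅ (Finset.empty_subset _) i (Finset.mem_insert_self i _) (Finset.notMem_empty i) z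
      rw [Finset.coe_empty, Set.image_empty] at h2
      rw [MI, Set.image_empty] at hz ⊢
      exact h2 hz
  | insert s I hs ih =>
    intro A _ f i hi hf 𝒜 hA hN
    obtain ⟨N, hN0⟩ := hN s (Finset.mem_insert_self s I)
    have his : i ≠ s := fun h => hi (h ▸ Finset.mem_insert_self s I)
    have hiI : i ∉ I := fun h => hi (Finset.mem_insert_of_mem h)
    -- the regular families
    have r1 : Reg f (insert i I) := hf.mono (Finset.insert_subset_insert i (Finset.subset_insert s I))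
    have r2 : Reg f (insert s I) := hf.mono (Finset.subset_insert i _)
    have r3 : Reg (fun j => Ideal.Quotient.mk (Ideal.span {f s}) (f j)) (insert i I) := by
      refine Reg.quot (s := s) (by rw [Finset.mem_insert, not_or]; exact ⟨his.symm, hs⟩) ?_
      rwa [Finset.insert_comm]
    induction N generalizing 𝒜 with
    | zero =>
      intro z hz
      rw [MI_sta f hs hN0] at hz ⊢
      exact ih f i hiI r1 𝒜 hA (fun t ht => hN t (Finset.mem_insert_of_mem ht)) z hz
    | succ N ihN =>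
      intro z hz
      have hslN : ∀ t ∈ I, ∃ N, Sta t N (sl s 𝒜) := fun t ht => by
        obtain ⟨N', h⟩ := hN t (Finset.mem_insert_of_mem ht)
        exact ⟨N', (sta_ne (fun e : t = s => hs (e ▸ ht)) h).1⟩
      have hupN : ∀ t ∈ insert s I, ∃ N, Sta t N (up s 𝒜) := fun t ht => by
        by_cases hts : t = s
        · subst hts
          exact ⟨N, sta_up hN0⟩
        · obtain ⟨N', h⟩ := hN t ht
          exact ⟨N', (sta_ne hts h).2⟩
      obtain ⟨a, h1, b, -, h3⟩ := MI_dec f hs hz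
      have h4 : Ideal.Quotient.mk (Ideal.span {f s}) (f i) * Ideal.Quotient.mk (Ideal.span {f s}) z ∈
          MI (fun j => Ideal.Quotient.mk (Ideal.span {f s}) (f j)) I (sl s 𝒜) := by
        rw [← map_mul, h3, map_add, map_mul, Ideal.Quotient.eq_zero_iff_mem.2 (Ideal.mem_span_singleton_self (f s)), zero_mul,
          add_zero, ← map_MI]
        exact Ideal.mem_map_of_mem _ h1
      obtain ⟨c, hc, z', hz'⟩ := lift_MI f s (ih _ i hiI r3 _ (sl_upper hA) hslN _ h4)
      have hc' : c ∈ MI f (insert s I) 𝒜 := MI_sl_le f hs 𝒜 hc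
      have h5 : f s * (f i * z') ∈ MI f (insert s I) 𝒜 := by
        have h6 : f s * (f i * z') = f i * z - f i * c := by rw [hz']; ring
        rw [h6]
        exact sub_mem hz (Ideal.mul_mem_left _ _ hc')
      have h6 := colon_MI f hs hA (ih f s hs r2 _ (sl_upper hA) hslN) h5
      have h7 := ihN (up s 𝒜) (up_upper hA) hupN (sta_up hN0) z' h6
      rw [hz']
      exact add_mem hc' (mul_up_mem f hs h7)

/-- the intersection of two monomial ideals -/
theorem inf_MI (I : Finset ι) : ∀ {A : Type u} [CommRing A] (f : ι → A), Reg f I →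
    ∀ 𝒜 ℬ : Set (ι → ℕ), IsUpperSet 𝒜 → IsUpperSet ℬ → (∀ s ∈ I, ∃ N, Sta s N 𝒜) → (∀ s ∈ I, ∃ N, Sta s N ℬ) →
    MI f I 𝒜 ⊓ MI f I ℬ ≤ MI f I (𝒜 ∩ ℬ) := by
  induction I using Finset.induction_on with
  | empty =>
    intro A _ f _ 𝒜 ℬ hA hB _ _ z hz
    by_cases h : (∃ α, α ∈ 𝒜) ∧ ∃ β, β ∈ ℬ
    · obtain ⟨⟨α, ha⟩, β, hb⟩ := h
      have h1 : α ⊔ β ∈ 𝒜 ∩ ℬ := ⟨hA le_sup_left ha, hB le_sup_right hb⟩
      have h2 := mon_mem f ∅ h1
      rw [Finset.prod_empty] at h2
      rw [(Ideal.eq_top_iff_one _).2 h2]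
      trivial
    · have h1 : 𝒜 = ∅ ∨ ℬ = ∅ := by
        rcases not_and_or.1 h with h | h
        · exact Or.inl (Set.eq_empty_of_forall_notMem fun α ha => h ⟨α, ha⟩)
        · exact Or.inr (Set.eq_empty_of_forall_notMem fun α ha => h ⟨α, ha⟩)
      rcases h1 with h1 | h1
      · subst h1
        have h2 := hz.1
        rw [MI, Set.image_empty, Ideal.span_empty] at h2
        rw [(Submodule.mem_bot A).1 h2]
        exact zero_mem _
      · subst h1
        have h2 := hz.2
        rw [MI, Set.image_empty, Ideal.span_empty] at h2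
        rw [(Submodule.mem_bot A).1 h2]
        exact zero_mem _
  | insert s I hs ih =>
    intro A _ f hf 𝒜 ℬ hA hB hNA hNB
    obtain ⟨N1, hN1⟩ := hNA s (Finset.mem_insert_self s I)
    obtain ⟨N2, hN2⟩ := hNB s (Finset.mem_insert_self s I)
    obtain ⟨N, hN, hN'⟩ : ∃ N, Sta s N 𝒜 ∧ Sta s N ℬ :=
      ⟨max N1 N2, sta_mono (le_max_left _ _) hN1, sta_mono (le_max_right _ _) hN2⟩
    have r1 : Reg f I := hf.mono (Finset.subset_insert s I)
    have r3 : Reg (fun j => Ideal.Quotient.mk (Ideal.span {f s}) (f j)) I := Reg.quot hs hf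
    clear hN1 hN2
    induction N generalizing 𝒜 ℬ with
    | zero =>
      intro z hz
      rw [MI_sta f hs hN, MI_sta f hs hN'] at hz
      have h1 : Sta s 0 (𝒜 ∩ ℬ) := fun α h => by rw [Set.mem_inter_iff, Set.mem_inter_iff, hN α h, hN' α h]
      rw [MI_sta f hs h1]
      exact ih f r1 𝒜 ℬ hA hB (fun t ht => hNA t (Finset.mem_insert_of_mem ht))
        (fun t ht => hNB t (Finset.mem_insert_of_mem ht)) hz
    | succ N ihN =>
      intro z hz
      have hsl : ∀ 𝒞 : Set (ι → ℕ), (∀ t ∈ insert s I, ∃ N, Sta t N 𝒞) → ∀ t ∈ I, ∃ N, Sta t N (sl s 𝒞) :=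
        fun 𝒞 hC t ht => by
          obtain ⟨N', h⟩ := hC t (Finset.mem_insert_of_mem ht)
          exact ⟨N', (sta_ne (fun e : t = s => hs (e ▸ ht)) h).1⟩
      have hup : ∀ 𝒞 : Set (ι → ℕ), Sta s (N + 1) 𝒞 → (∀ t ∈ insert s I, ∃ N, Sta t N 𝒞) →
          ∀ t ∈ insert s I, ∃ N, Sta t N (up s 𝒞) := fun 𝒞 hC0 hC t ht => by
        by_cases hts : t = s
        · subst hts
          exact ⟨N, sta_up hC0⟩
        · obtain ⟨N', h⟩ := hC t ht
          exact ⟨N', (sta_ne hts h).2⟩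
      have hq : ∀ 𝒞 : Set (ι → ℕ), z ∈ MI f (insert s I) 𝒞 → Ideal.Quotient.mk (Ideal.span {f s}) z ∈
          MI (fun j => Ideal.Quotient.mk (Ideal.span {f s}) (f j)) I (sl s 𝒞) := by
        intro 𝒞 hC
        obtain ⟨a, h1, b, -, h3⟩ := MI_dec f hs hC
        rw [h3, map_add, map_mul, Ideal.Quotient.eq_zero_iff_mem.2 (Ideal.mem_span_singleton_self (f s)), zero_mul,
          add_zero, ← map_MI]
        exact Ideal.mem_map_of_mem _ h1
      have h1 := ih _ r3 _ _ (sl_upper hA) (sl_upper hB) (hsl 𝒜 hNA) (hsl ℬ hNB) ⟨hq 𝒜 hz.1, hq ℬ hz.2⟩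
      obtain ⟨c, hc, z', hz'⟩ := lift_MI f s h1
      have hcA : c ∈ MI f (insert s I) 𝒜 := MI_sl_le f hs 𝒜 (MI_mono f I Set.inter_subset_left hc)
      have hcB : c ∈ MI f (insert s I) ℬ := MI_sl_le f hs ℬ (MI_mono f I Set.inter_subset_right hc)
      have hcAB : c ∈ MI f (insert s I) (𝒜 ∩ ℬ) := MI_sl_le f hs (𝒜 ∩ ℬ) hc
      have hzs : f s * z' = z - c := by rw [hz']; ring
      have hA1 : z' ∈ MI f (insert s I) (up s 𝒜) :=
        colon_MI f hs hA (nzd_MI I f s hs hf _ (sl_upper hA) (hsl 𝒜 hNA)) (by rw [hzs]; exact sub_mem hz.1 hcA)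
      have hB1 : z' ∈ MI f (insert s I) (up s ℬ) :=
        colon_MI f hs hB (nzd_MI I f s hs hf _ (sl_upper hB) (hsl ℬ hNB)) (by rw [hzs]; exact sub_mem hz.2 hcB)
      have h2 := ihN (up s 𝒜) (up s ℬ) (up_upper hA) (up_upper hB) (hup 𝒜 hN hNA) (hup ℬ hN' hNB) (sta_up hN) (sta_up hN')
        ⟨hA1, hB1⟩
      rw [hz']
      exact add_mem hcAB (mul_up_mem f hs h2)

/-- an element of a monomial ideal lies in a monomial ideal of an upper set with finitely many generators -/
theorem MI_fin (I : Finset ι) {A : Type u} [CommRing A] (f : ι → A) {𝒜 : Set (ι → ℕ)} (hA : IsUpperSet 𝒜) {z : A}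
    (hz : z ∈ MI f I 𝒜) : ∃ 𝒞 : Set (ι → ℕ), 𝒞 ⊆ 𝒜 ∧ IsUpperSet 𝒞 ∧ (∀ s, ∃ N, Sta s N 𝒞) ∧ z ∈ MI f I 𝒞 := by
  classical
  obtain ⟨T, hT, hzT⟩ := Submodule.mem_span_finite_of_mem_span hz
  obtain ⟨S, hS, rfl⟩ := Finset.subset_set_image_iff.1 hT
  refine ⟨{α | ∃ β ∈ S, β ≤ α}, ?_, ?_, ?_, ?_⟩
  · rintro α ⟨β, hb, hab⟩
    exact hA hab (hS hb)
  · rintro α β hab ⟨γ, hg, hga⟩
    exact ⟨γ, hg, hga.trans hab⟩
  · intro s
    refine ⟨S.sup fun β => β s, fun α ha => ?_⟩
    constructor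
    · rintro ⟨β, hb, hab⟩
      refine ⟨β, hb, fun i => ?_⟩
      by_cases hi : i = s
      · subst hi
        rw [Function.update_self]
        exact Finset.le_sup (f := fun β => β i) hb
      · rw [Function.update_of_ne hi]
        exact hab i
    · rintro ⟨β, hb, hab⟩
      refine ⟨β, hb, fun i => ?_⟩
      by_cases hi : i = s
      · subst hi
        exact (Finset.le_sup (f := fun β => β i) hb).trans ha
      · have := hab i
        rwa [Function.update_of_ne hi] at this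
  · refine Submodule.span_mono ?_ hzT
    rw [Finset.coe_image]
    exact Set.image_mono fun β hb => ⟨β, hb, le_rfl⟩

/-- the intersection of two monomial ideals is the monomial ideal of the intersection -/
theorem inf_MI_eq (I : Finset ι) {A : Type u} [CommRing A] (f : ι → A) (hf : Reg f I) (𝒜 ℬ : Set (ι → ℕ))
    (hA : IsUpperSet 𝒜) (hB : IsUpperSet ℬ) : MI f I 𝒜 ⊓ MI f I ℬ = MI f I (𝒜 ∩ ℬ) := by
  refine le_antisymm ?_ (le_inf (MI_mono f I Set.inter_subset_left) (MI_mono f I Set.inter_subset_right))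
  rintro z ⟨h1, h2⟩
  obtain ⟨𝒞, hC, uC, sC, zC⟩ := MI_fin I f hA h1
  obtain ⟨𝒟, hD, uD, sD, zD⟩ := MI_fin I f hB h2
  exact MI_mono f I (Set.inter_subset_inter hC hD)
    (inf_MI I f hf 𝒞 𝒟 uC uD (fun s _ => sC s) (fun s _ => sD s) ⟨zC, zD⟩)

end

end Pool.Agent.Helper21.RV
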