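import Pool.Agent.Helper80.RV.Defs
import Pool.Agent.Helper21.RV.Mon

/-!
# RV2: the filtrations of closed subschemes which intersect properly
-/

set_option autoImplicit false
set_option linter.unusedSectionVars false

namespace Pool.Agent.SQ.RV

open MvPolynomial
open Pool.Agent.Helper21.RV (MI MI_mono mon_mem inf_MI_eq Reg)

universe u

section

variable {A : Type*} [CommRing A] {q c : ℕ}

/-- the monomials of weight at least `n` -/
private def wts (u : Fin q → ℕ) (π : Fin c → Fin q) (n : ℕ) : Set (Fin c → ℕ) := {α | n ≤ ∑ a, u (π a) * α a}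

private theorem wts_upper (u : Fin q → ℕ) (π : Fin c → Fin q) (n : ℕ) : IsUpperSet (wts u π n) :=
  fun _ _ hab ha => le_trans ha (Finset.sum_le_sum fun i _ => Nat.mul_le_mul_left _ (hab i))

private theorem wts_zero (φ : Fin c → A) (u : Fin q → ℕ) (π : Fin c → Fin q) : MI φ Finset.univ (wts u π 0) = ⊤ := by
  rw [Ideal.eq_top_iff_one]
  have h := mon_mem φ Finset.univ (𝒜 := wts u π 0) (α := fun _ => 0) (Nat.zero_le _)
  simpa using h

private theorem wts_mul (φ : Fin c → A) (u : Fin q → ℕ) (π : Fin c → Fin q) (n m : ℕ) :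
    MI φ Finset.univ (wts u π n) * MI φ Finset.univ (wts u π m) ≤ MI φ Finset.univ (wts u π (n + m)) := by
  rw [MI, MI, Ideal.span_mul_span', Ideal.span_le]
  rintro _ ⟨_, ⟨α, ha, rfl⟩, _, ⟨β, hb, rfl⟩, rfl⟩
  have h : (fun a => α a + β a) ∈ wts u π (n + m) := by
    show n + m ≤ ∑ a, u (π a) * (α a + β a)
    simp only [mul_add, Finset.sum_add_distrib]
    exact add_le_add ha hb
  have h1 := mon_mem φ Finset.univ h
  simp only [pow_add, Finset.prod_mul_distrib] at h1
  exact h1

private theorem wts_pow (φ : Fin c → A) (u : Fin q → ℕ) (π : Fin c → Fin q) (I : Ideal A) (n : ℕ)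
    (h : I ≤ MI φ Finset.univ (wts u π n)) (b : ℕ) : I ^ b ≤ MI φ Finset.univ (wts u π (n * b)) := by
  induction b with
  | zero =>
    rw [mul_zero, wts_zero]
    exact le_top
  | succ b ih =>
    rw [pow_succ, mul_add, mul_one]
    exact (Ideal.mul_mono ih h).trans (wts_mul φ u π _ _)

private theorem wts_prod (φ : Fin c → A) (u : Fin q → ℕ) (π : Fin c → Fin q) (I : Fin q → Ideal A)
    (h : ∀ i, I i ≤ MI φ Finset.univ (wts u π (u i))) (b : Fin q → ℕ) (s : Finset (Fin q)) :
    ∏ i ∈ s, I i ^ b i ≤ MI φ Finset.univ (wts u π (∑ i ∈ s, u i * b i)) := by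
  classical
  induction s using Finset.induction_on with
  | empty =>
    rw [Finset.sum_empty, wts_zero]
    exact le_top
  | insert i s hi ih =>
    rw [Finset.prod_insert hi, Finset.sum_insert hi]
    exact (Ideal.mul_mono (wts_pow φ u π _ _ (h i) _) ih).trans (wts_mul φ u π _ _)

private theorem wid_wts (φ : Fin c → A) (u : Fin q → ℕ) (π : Fin c → Fin q) (I : Fin q → Ideal A) (T : Finset (Fin q))
    (hu : ∀ i ∉ T, u i = 0) (hI : ∀ i ∈ T, I i = Ideal.span (φ '' {a | π a = i})) (x : ℕ) :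
    wid I u x = MI φ Finset.univ (wts u π x) := by
  classical
  refine le_antisymm (iSup_le fun b => ?_) ?_
  · refine (wts_prod φ u π I (fun i => ?_) b.1 Finset.univ).trans (MI_mono φ _ fun α ha => le_trans b.2 ha)
    by_cases hi : i ∈ T
    · rw [hI i hi, Ideal.span_le]
      rintro _ ⟨a, ha, rfl⟩
      have h : (Pi.single a 1 : Fin c → ℕ) ∈ wts u π (u i) := by
        show u i ≤ ∑ a', u (π a') * (Pi.single a 1 : Fin c → ℕ) a'
        rw [Finset.sum_eq_single a (fun a' _ h => by rw [Pi.single_eq_of_ne h, mul_zero])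
          (fun h => absurd (Finset.mem_univ a) h), Pi.single_eq_same, mul_one, show π a = i from ha]
      have h1 := mon_mem φ Finset.univ h
      rw [Finset.prod_eq_single a (fun a' _ h => by rw [Pi.single_eq_of_ne h, pow_zero])
          (fun h => absurd (Finset.mem_univ a) h), Pi.single_eq_same, pow_one] at h1
      exact h1
    · rw [hu i hi, wts_zero]
      exact le_top
  · rw [MI, Ideal.span_le]
    rintro _ ⟨α, ha, rfl⟩
    obtain ⟨b, hb⟩ : ∃ b : Fin q → ℕ, b = fun i => if i ∈ T then ∑ a ∈ Finset.univ.filter (fun a => π a = i), α a else 0 :=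
      ⟨_, rfl⟩
    have h1 : ∑ i, u i * b i = ∑ a, u (π a) * α a := by
      rw [← Finset.sum_fiberwise Finset.univ π]
      refine Finset.sum_congr rfl fun i _ => ?_
      rw [hb]
      simp only
      split_ifs with hi
      · rw [Finset.mul_sum]
        refine Finset.sum_congr rfl fun a ha => ?_
        rw [(Finset.mem_filter.1 ha).2]
      · rw [mul_zero]
        refine (Finset.sum_eq_zero fun a ha => ?_).symm
        rw [(Finset.mem_filter.1 ha).2, hu i hi, zero_mul]
    have h2 : ∏ a, φ a ^ α a ∈ ∏ i, I i ^ b i := by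
      rw [← Finset.prod_fiberwise Finset.univ π]
      refine Ideal.prod_mem_prod fun i _ => ?_
      rw [hb]
      simp only
      split_ifs with hi
      · rw [← Finset.prod_pow_eq_pow_sum]
        refine Ideal.prod_mem_prod fun a ha => Ideal.pow_mem_pow ?_ _
        rw [hI i hi]
        exact Ideal.subset_span ⟨a, (Finset.mem_filter.1 ha).2, rfl⟩
      · rw [pow_zero, Ideal.one_eq_top]
        trivial
    exact le_iSup (fun b : {b : Fin q → ℕ // x ≤ ∑ i, u i * b i} => ∏ i, I i ^ b.1 i) ⟨b, by rw [h1]; exact ha⟩ h2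

private theorem map_wid {R : Type*} [CommRing R] (ψ : R →+* A) (I : Fin q → Ideal R) (u : Fin q → ℕ) (x : ℕ) :
    (wid I u x).map ψ = wid (fun i => (I i).map ψ) u x := by
  have h1 : ∀ α : Fin q → ℕ, (∏ i, I i ^ α i).map ψ = ∏ i, (I i).map ψ ^ α i := by
    intro α
    have h2 : (∏ i, I i ^ α i).map ψ = ∏ i, (I i ^ α i).map ψ := map_prod (Ideal.mapHom ψ) _ _
    rw [h2]
    exact Finset.prod_congr rfl fun i _ => Ideal.map_pow _ _ _
  rw [wid, wid, Ideal.map_iSup]
  simp only [h1]

/-- the two cases at a prime -/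
private theorem loc_a {R : Type*} [CommRing R] (I : Fin q → Ideal R) (T : Finset (Fin q)) (p : Ideal R) [p.IsPrime]
    (φ : Fin c → Localization.AtPrime p) (π : Fin c → Fin q)
    (hI : ∀ i ∈ T, (I i).map (algebraMap R (Localization.AtPrime p)) = Ideal.span (φ '' {a | π a = i}))
    (hr : ∀ a, ∀ U : Finset (Fin c), a ∉ U → ∀ z, φ a * z ∈ Ideal.span (φ '' (U : Set (Fin c))) →
      z ∈ Ideal.span (φ '' (U : Set (Fin c)))) (u w : Fin q → ℕ) (hu : ∀ i ∉ T, u i = 0) (hw : ∀ i ∉ T, w i = 0) (x y : ℕ)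
    {s a b : R} (ha : a ∉ p) (hb : b ∉ p) (h1 : a * s ∈ wid I u x) (h2 : b * s ∈ wid I w y) :
    ∃ e ∉ p, e * s ∈ wid I (u + w) (x + y) := by
  classical
  have key : ∀ (v : Fin q → ℕ) (z : ℕ) (e : R), (∀ i ∉ T, v i = 0) → e ∉ p → e * s ∈ wid I v z →
      algebraMap R (Localization.AtPrime p) s ∈ MI φ Finset.univ (wts v π z) := by
    intro v z e hv he h
    have h3 := Ideal.mem_map_of_mem (algebraMap R (Localization.AtPrime p)) h
    rw [map_wid, wid_wts φ v π _ T hv hI, map_mul] at h3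
    have hun : IsUnit (algebraMap R (Localization.AtPrime p) e) :=
      IsLocalization.map_units (Localization.AtPrime p) (⟨e, he⟩ : p.primeCompl)
    exact (Ideal.unit_mul_mem_iff_mem _ hun).1 h3
  have h3 : algebraMap R (Localization.AtPrime p) s ∈ (wid I (u + w) (x + y)).map (algebraMap R (Localization.AtPrime p)) := by
    rw [map_wid, wid_wts φ (u + w) π _ T (fun i hi => by rw [Pi.add_apply, hu i hi, hw i hi]) hI]
    have hreg : Reg φ Finset.univ := fun U _ a _ haU => hr a U haU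
    have h4 : algebraMap R (Localization.AtPrime p) s ∈ MI φ Finset.univ (wts u π x ∩ wts w π y) := by
      rw [← inf_MI_eq Finset.univ φ hreg _ _ (wts_upper u π x) (wts_upper w π y)]
      exact ⟨key u x a hu ha h1, key w y b hw hb h2⟩
    refine MI_mono φ _ ?_ h4
    rintro α ⟨hα1, hα2⟩
    show x + y ≤ ∑ a, (u + w) (π a) * α a
    simp only [Pi.add_apply, add_mul, Finset.sum_add_distrib]
    exact add_le_add hα1 hα2
  rw [IsLocalization.mem_map_algebraMap_iff p.primeCompl] at h3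
  obtain ⟨⟨⟨z, hz⟩, ⟨e, he⟩⟩, h4⟩ := h3
  simp only at h4
  rw [← map_mul, IsLocalization.eq_iff_exists p.primeCompl] at h4
  obtain ⟨⟨d, hd⟩, h5⟩ := h4
  refine ⟨d * e, fun h => ?_, ?_⟩
  · rcases (inferInstance : p.IsPrime).mem_or_mem h with h | h
    · exact hd h
    · exact he h
  · have h6 : d * e * s = d * z := by
      rw [← h5]
      ring
    rw [h6]
    exact Ideal.mul_mem_left _ _ hz

private theorem le_wid {R : Type*} [CommRing R] (I : Fin q → Ideal R) (u : Fin q → ℕ) {x n : ℕ} {i : Fin q}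
    (h : x ≤ u i * n) : I i ^ n ≤ wid I u x := by
  classical
  have h1 : ∏ j, I j ^ (Pi.single i n : Fin q → ℕ) j = I i ^ n := by
    rw [Finset.prod_eq_single i (fun a' _ h => by rw [Pi.single_eq_of_ne h, pow_zero])
      (fun h => absurd (Finset.mem_univ i) h), Pi.single_eq_same]
  rw [← h1]
  refine le_iSup (fun b : {b : Fin q → ℕ // x ≤ ∑ i, u i * b i} => ∏ i, I i ^ b.1 i) ⟨Pi.single i n, ?_⟩
  rwa [Finset.sum_eq_single i (fun a' _ h => by rw [Pi.single_eq_of_ne h, mul_zero])
      (fun h => absurd (Finset.mem_univ i) h), Pi.single_eq_same]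

private theorem wid_le {R : Type*} [CommRing R] (I : Fin q → Ideal R) (u : Fin q → ℕ) {x n : ℕ} {i : Fin q}
    (hu : ∀ j, j ≠ i → u j = 0) (h : ∀ m, x ≤ u i * m → n ≤ m) : wid I u x ≤ I i ^ n := by
  classical
  refine iSup_le fun b => ?_
  have h1 : n ≤ b.1 i := by
    refine h _ (le_trans b.2 (le_of_eq ?_))
    rw [Finset.sum_eq_single i (fun a' _ h => by rw [hu a' h, zero_mul]) (fun h => absurd (Finset.mem_univ i) h)]
  have h2 : ∏ j, I j ^ b.1 j = I i ^ b.1 i * ∏ j ∈ Finset.univ.erase i, I j ^ b.1 j :=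
    (Finset.mul_prod_erase Finset.univ (fun j => I j ^ b.1 j) (Finset.mem_univ i)).symm
  rw [h2]
  exact Ideal.mul_le_left.trans (Ideal.pow_le_pow_right h1)

private theorem wid_bot {R : Type*} [CommRing R] (I : Fin q → Ideal R) (u : Fin q → ℕ) {x : ℕ}
    (h : ∀ b : Fin q → ℕ, ¬ x ≤ ∑ i, u i * b i) : wid I u x = ⊥ :=
  le_antisymm (iSup_le fun b => absurd b.2 (h b.1)) bot_le

private theorem loc_b {R : Type*} [CommRing R] (I : Fin q → Ideal R) (T : Finset (Fin q)) (p : Ideal R) [p.IsPrime]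
    (hp : ∀ i ∈ T, ∀ j ∈ T, i ≠ j → ¬ (I i ≤ p ∧ I j ≤ p)) (u w : Fin q → ℕ) (hu : ∀ i ∉ T, u i = 0) (hw : ∀ i ∉ T, w i = 0)
    (x y : ℕ) {s a b : R} (ha : a ∉ p) (hb : b ∉ p) (h1 : a * s ∈ wid I u x) (h2 : b * s ∈ wid I w y) :
    ∃ e ∉ p, e * s ∈ wid I (u + w) (x + y) := by
  classical
  by_cases hex : ∃ i, ¬ I i ≤ p ∧ 0 < (u + w) i
  · obtain ⟨i, hi, h0⟩ := hex
    obtain ⟨j, hj, hjp⟩ := SetLike.not_le_iff_exists.1 hi
    refine ⟨j ^ (x + y), fun h => hjp ((inferInstance : p.IsPrime).mem_of_pow_mem _ h), ?_⟩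
    refine Ideal.mul_mem_right _ _ (le_wid I (u + w) (i := i) (n := x + y) ?_ (Ideal.pow_mem_pow hj _))
    exact Nat.le_mul_of_pos_left _ h0
  push Not at hex
  by_cases hz : ∃ i, 0 < (u + w) i
  · obtain ⟨i, hi⟩ := hz
    have hip : I i ≤ p := by
      by_contra h
      exact absurd (hex i h) (not_le.2 hi)
    have hiT : i ∈ T := by
      by_contra h
      rw [Pi.add_apply, hu i h, hw i h] at hi
      exact lt_irrefl _ hi
    have hz : ∀ j, j ≠ i → (u + w) j = 0 := by
      intro j hj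
      by_contra h
      have h3 : I j ≤ p := by
        by_contra h'
        exact h (Nat.le_zero.1 (hex j h'))
      have h4 : j ∈ T := by
        by_contra h'
        rw [Pi.add_apply, hu j h', hw j h'] at h
        exact h rfl
      exact hp j h4 i hiT hj ⟨h3, hip⟩
    have hzu : ∀ j, j ≠ i → u j = 0 := fun j hj => (Nat.add_eq_zero_iff.1 (hz j hj)).1
    have hzw : ∀ j, j ≠ i → w j = 0 := fun j hj => (Nat.add_eq_zero_iff.1 (hz j hj)).2
    -- the orders
    by_cases hx : ∃ n, x ≤ u i * n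
    · by_cases hy : ∃ n, y ≤ w i * n
      · have hx1 := Nat.find_spec hx
        have hy1 := Nat.find_spec hy
        rcases le_total (Nat.find hy) (Nat.find hx) with h | h
        · refine ⟨a, ha, ?_⟩
          refine le_wid I (u + w) (i := i) (n := Nat.find hx) ?_ (wid_le I u hzu (fun m hm => Nat.find_min' hx hm) h1)
          rw [Pi.add_apply, add_mul]
          exact add_le_add hx1 (hy1.trans (Nat.mul_le_mul_left _ h))
        · refine ⟨b, hb, ?_⟩
          refine le_wid I (u + w) (i := i) (n := Nat.find hy) ?_ (wid_le I w hzw (fun m hm => Nat.find_min' hy hm) h2)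
          rw [Pi.add_apply, add_mul]
          exact add_le_add (hx1.trans (Nat.mul_le_mul_left _ h)) hy1
      · push Not at hy
        refine ⟨b, hb, ?_⟩
        rw [wid_bot I w fun b' h => ?_, Ideal.mem_bot] at h2
        · rw [h2]
          exact zero_mem _
        · rw [Finset.sum_eq_single i (fun a' _ h => by rw [hzw a' h, zero_mul]) (fun h => absurd (Finset.mem_univ i) h)] at h
          exact absurd h (not_le.2 (hy _))
    · push Not at hx
      refine ⟨a, ha, ?_⟩
      rw [wid_bot I u fun b' h => ?_, Ideal.mem_bot] at h1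
      · rw [h1]
        exact zero_mem _
      · rw [Finset.sum_eq_single i (fun a' _ h => by rw [hzu a' h, zero_mul]) (fun h => absurd (Finset.mem_univ i) h)] at h
        exact absurd h (not_le.2 (hx _))
  · push Not at hz
    have hz' : ∀ i, u i = 0 ∧ w i = 0 := fun i => Nat.add_eq_zero_iff.1 (Nat.le_zero.1 (hz i))
    rcases Nat.eq_zero_or_pos x with hx | hx
    · rcases Nat.eq_zero_or_pos y with hy | hy
      · refine ⟨1, (Ideal.ne_top_iff_one p).1 (inferInstance : p.IsPrime).ne_top, ?_⟩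
        subst hx hy
        refine le_iSup (fun b : {b : Fin q → ℕ // 0 + 0 ≤ ∑ i, (u + w) i * b i} => ∏ i, I i ^ b.1 i)
          ⟨fun _ => 0, Nat.zero_le _⟩ ?_
        have h3 : ∏ i, I i ^ (fun _ : Fin q => 0) i = ⊤ := by
          simp only [pow_zero]
          rw [Finset.prod_const_one, Ideal.one_eq_top]
        exact h3 ▸ Submodule.mem_top
      · refine ⟨b, hb, ?_⟩
        rw [wid_bot I w fun b' h => ?_, Ideal.mem_bot] at h2
        · rw [h2]
          exact zero_mem _
        · rw [Finset.sum_eq_zero fun i _ => by rw [(hz' i).2, zero_mul]] at h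
          exact absurd h (not_le.2 hy)
    · refine ⟨a, ha, ?_⟩
      rw [wid_bot I u fun b' h => ?_, Ideal.mem_bot] at h1
      · rw [h1]
        exact zero_mem _
      · rw [Finset.sum_eq_zero fun i _ => by rw [(hz' i).1, zero_mul]] at h
        exact absurd h (not_le.2 hx)

end

section

variable {k : Type u} [Field k] {N q : ℕ}

private theorem mem_sup_iff (P I : Ideal (MvPolynomial (Fin (N + 1)) k)) (p : MvPolynomial (Fin (N + 1)) k) :
    p ∈ P ⊔ I ↔ Ideal.Quotient.mk P p ∈ I.map (Ideal.Quotient.mk P) := by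
  rw [← Ideal.mem_comap, Ideal.comap_map_of_surjective _ Ideal.Quotient.mk_surjective, ← RingHom.ker_eq_comap_bot,
    Ideal.mk_ker, sup_comm]

/-- the multipliers -/
private def mult {R : Type*} [CommRing R] (K : Ideal R) (s : R) : Ideal R where
  carrier := {c | c * s ∈ K}
  add_mem' := fun {a b} ha hb => by
    show (a + b) * s ∈ K
    rw [add_mul]
    exact add_mem ha hb
  zero_mem' := by
    show (0 : R) * s ∈ K
    rw [zero_mul]
    exact zero_mem _
  smul_mem' := fun c a ha => by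
    show (c * a) * s ∈ K
    rw [mul_assoc]
    exact Ideal.mul_mem_left _ _ ha

/-- RV2 -/
theorem aut (P : Ideal (MvPolynomial (Fin (N + 1)) k)) (J : Fin q → Ideal (MvPolynomial (Fin (N + 1)) k))
    (T : Finset (Fin q)) (hT : GenPos P J T) (u w : Fin q → ℕ) (hu : ∀ i ∉ T, u i = 0) (hw : ∀ i ∉ T, w i = 0) (x y : ℕ) :
    fil P J u x ⊓ fil P J w y ≤ fil P J (u + w) (x + y) := by
  rintro p ⟨h1, h2⟩
  obtain ⟨M1, h1⟩ := h1
  obtain ⟨M2, h2⟩ := h2
  have key : ∀ l, ∃ n : ℕ, X l ^ n * p ∈ P ⊔ wid J (u + w) (x + y) := by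
    intro l
    by_contra hn
    push Not at hn
    have h3 := h1 l
    have h4 := h2 l
    rw [mem_sup_iff, map_wid, map_mul, map_pow] at h3 h4
    obtain ⟨K, hK⟩ : ∃ K, K = mult (wid (fun i => (J i).map (Ideal.Quotient.mk P)) (u + w) (x + y))
      (Ideal.Quotient.mk P p) := ⟨_, rfl⟩
    have hX : Ideal.Quotient.mk P (X l) ∉ K.radical := by
      rintro ⟨n, h⟩
      refine hn n ?_
      rw [mem_sup_iff, map_wid, map_mul, map_pow]
      rw [hK] at h
      exact h
    rw [Ideal.radical_eq_sInf, Submodule.mem_sInf] at hX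
    push Not at hX
    obtain ⟨𝔭, ⟨hKp, hp⟩, hXp⟩ := hX
    have hpow : ∀ n : ℕ, Ideal.Quotient.mk P (X l) ^ n ∉ 𝔭 := fun n h => hXp (hp.mem_of_pow_mem n h)
    have h5 : ∃ e ∉ 𝔭, e * Ideal.Quotient.mk P p ∈ wid (fun i => (J i).map (Ideal.Quotient.mk P)) (u + w) (x + y) := by
      rcases hT 𝔭 ⟨l, hXp⟩ with ⟨c, φ, π, hφ, hr⟩ | hb
      · exact loc_a _ T 𝔭 φ π hφ hr u w hu hw x y (hpow M1) (hpow M2) h3 h4
      · exact loc_b _ T 𝔭 hb u w hu hw x y (hpow M1) (hpow M2) h3 h4
    obtain ⟨e, he, h6⟩ := h5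
    refine he (hKp ?_)
    rw [hK]
    exact h6
  choose n hn using key
  refine ⟨∑ l, n l, fun l => ?_⟩
  have h5 : (X l : MvPolynomial (Fin (N + 1)) k) ^ (∑ l, n l) * p = X l ^ ((∑ l, n l) - n l) * (X l ^ n l * p) := by
    rw [← mul_assoc, ← pow_add, Nat.sub_add_cancel (Finset.single_le_sum (fun _ _ => Nat.zero_le _) (Finset.mem_univ l))]
  rw [h5]
  exact Ideal.mul_mem_left _ _ (hn l)

end

end Pool.Agent.SQ.RV
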